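import Pool.Agent.H832R2.Kap

/-!
Kaplansky: the integral group ring of any group is stably finite.
-/

set_option autoImplicit false

namespace Pool.Agent.W948.CCN

open Pool.Agent.H832R2

theorem idem_aux {A : Type} [Ring A] (X Y : A) (h : X * Y = 1) :
    (1 - Y * X) * (1 - Y * X) = 1 - Y * X := by
  have h1 : Y * X * (Y * X) = Y * X := by
    rw [mul_assoc, ← mul_assoc X Y X, h, one_mul]
  rw [mul_sub, mul_one, sub_mul, one_mul, h1, sub_self, sub_zero]

theorem mat_aux (G : Type) [Group G] (n : ℕ) (X Y : Matrix (Fin n) (Fin n) (MonoidAlgebra ℤ G))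
    (h : X * Y = 1) : Y * X = 1 := by
  have he := idem_aux X Y h
  have h2 : trc (1 - Y * X) + trc (Y * X) =
      trc (1 : Matrix (Fin n) (Fin n) (MonoidAlgebra ℤ G)) := by
    rw [← trc_add, sub_add_cancel]
  have h4 : trc (Y * X) = trc (1 : Matrix (Fin n) (Fin n) (MonoidAlgebra ℤ G)) := by
    rw [trc_comm Y X, h]
  have ht : trc (1 - Y * X) = 0 := by
    rw [h4] at h2
    exact add_eq_right.mp h2
  exact (sub_eq_zero.mp (kap _ he ht)).symm

theorem stablyFinite (G : Type) [Group G] : IsStablyFiniteRing (MonoidAlgebra ℤ G) :=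
  ⟨fun n => ⟨fun {X Y} h => mat_aux G n X Y h⟩⟩

end Pool.Agent.W948.CCN
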